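import Pool.Agent.W2helper98.K4.Induce
import Pool.Agent.Helper442.FE.Main

/-!
# The largest complete class of matroids containing no copy of `M(K_4)`

It is the class of all (finite) matroids with no minor isomorphic to `M(K_4)`.
-/

set_option autoImplicit false

namespace Pool.Agent.Results.MP_c5be19_co.LargestCompleteClass

open Set Pool.Agent.Helper442.FE Pool.Agent.W2helper98.K4

/-- The class `𝒦` of the finite matroids with no minor isomorphic to `M(K_4)`. -/
def NoK4Minor : MClass := fun _ M => M.E.Finite ∧ ∀ N, N ≤m M → ¬ IsMK4 N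

/-- The class `C` contains no copy of `M(K_4)`. -/
def AvoidsK4 (C : MClass) : Prop := ∀ (α : Type) (M : Matroid α), C α M → ¬ IsMK4 M

/-- `C` is the largest complete class containing no copy of `M(K_4)`. -/
def IsLargest (C : MClass) : Prop :=
  IsComplete C ∧ AvoidsK4 C ∧
    ∀ D : MClass, IsComplete D → AvoidsK4 D → ∀ (α : Type) (M : Matroid α), D α M → C α M

theorem noK4_iff {α : Type} {M : Matroid α} :
    NoK4Minor α M ↔ M.E.Finite ∧ ¬ HasQ (rk M) := by
  unfold NoK4Minor
  constructor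
  · rintro ⟨hM, h⟩
    exact ⟨hM, fun hq => by
      obtain ⟨N, hN, hK⟩ := (hasQ_iff hM).1 hq
      exact h N hN hK⟩
  · rintro ⟨hM, h⟩
    exact ⟨hM, fun N hN hK => h ((hasQ_iff hM).2 ⟨N, hN, hK⟩)⟩

theorem noK4_minor {α : Type} {M N : Matroid α} (hM : NoK4Minor α M) (hN : N ≤m M) :
    NoK4Minor α N :=
  ⟨hM.1.subset hN.subset, fun P hP => hM.2 P (hP.trans hN)⟩

theorem isComplete_noK4Minor : IsComplete NoK4Minor where
  finite h := h.1
  iso := by
    intro α β M N hiso hM
    rw [noK4_iff] at hM ⊢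
    refine ⟨?_, fun hq => hM.2 (hasQ_iso hM.1 hiso hq)⟩
    obtain ⟨e, -⟩ := hiso
    have : Finite M.E := hM.1
    have : Finite N.E := Finite.of_equiv _ e
    exact Set.toFinite _
  restrict := by
    intro α M hM A hA
    refine noK4_minor hM ?_
    have h := Matroid.contract_delete_isMinor M ∅ (M.E \ A)
    rwa [Matroid.contract_empty, Matroid.delete_eq_restrict, sdiff_sdiff_cancel_left hA] at h
  contract := by
    intro α M hM A _
    refine noK4_minor hM ?_
    have h := Matroid.contract_delete_isMinor M A ∅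
    rwa [Matroid.delete_empty] at h
  dual := by
    intro α M hM
    rw [noK4_iff] at hM ⊢
    exact ⟨hM.1, fun hq => hM.2 (hasQ_dual hM.1 hq)⟩
  directSum := by
    intro α β M N hM hN
    rw [noK4_iff] at hM hN ⊢
    refine ⟨?_, fun hq => ?_⟩
    · rw [Matroid.sum_ground]
      exact (hM.1.image _).union (hN.1.image _)
    · rcases hasQ_sum hM.1 hN.1 hq with h | h
      · exact hM.2 h
      · exact hN.2 h
  truncate := by
    intro α M T k hM hk hT
    rw [noK4_iff] at hM ⊢
    exact ⟨by rw [hT.1]; exact hM.1, fun hq => hM.2 (hasQ_truncation hM.1 hk hT hq)⟩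
  induce := by
    intro τ _ G M₀ N A hM hN
    rw [noK4_iff] at hM ⊢
    exact ⟨Set.toFinite _, fun hq => hM.2 (hasQ_induced hN hq)⟩

/-- Complete classes are closed under minors. -/
theorem minor_of_isComplete {D : MClass} (hD : IsComplete D) {α : Type} {M N : Matroid α}
    (hM : D α M) (hN : N ≤m M) : D α N := by
  obtain ⟨C, X, hC, hX, hCX, rfl⟩ := hN.exists_eq_contract_delete_disjoint
  have h1 := hD.contract hM C hC
  rw [Matroid.delete_eq_restrict]
  exact hD.restrict h1 _ Set.sdiff_subset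

theorem isLargest_noK4Minor : IsLargest NoK4Minor := by
  refine ⟨isComplete_noK4Minor, fun α M hM => hM.2 M Matroid.IsMinor.refl, ?_⟩
  intro D hD hav α M hM
  exact ⟨hD.finite hM, fun N hN => hav α N (minor_of_isComplete hD hM hN)⟩

theorem iso_refl {α : Type} (M : Matroid α) : Iso M M :=
  ⟨Equiv.refl _, fun I => by simp⟩

theorem isMK4_of_isCycle {K : Matroid (Sym2 (Fin 4))} (hK : IsCycleMatroidK4 K) : IsMK4 K :=
  ⟨K, hK, iso_refl K⟩

theorem noK4_empty : NoK4Minor Empty (Matroid.emptyOn Empty) := by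
  refine ⟨Set.toFinite _, fun N hN hK => ?_⟩
  obtain ⟨p, -, -, -⟩ := (isMK4_iff N).1 hK
  exact (p 0).elim

theorem exists_not_bo : ∃ (α : Type) (M : Matroid α), NoK4Minor α M ∧ ¬ BO α M := by
  have hfin : (Pool.Agent.Helper236.cyc ℚ 4).E.Finite := Set.toFinite _
  obtain ⟨n₀, hn₀⟩ := gammoid_of_gn hfin
  have hb : 1 ≤ n₀ + 1 := Nat.le_add_left 1 n₀
  have h4 : Gn n₀ _ (El.W (n₀ + 1) hb) := El.W_gn (by omega) hb
  refine ⟨_, El.W (n₀ + 1) hb, ?_, El.W_not_bo hb⟩
  refine isLargest_noK4Minor.2.2 (Gn n₀) (gn_isComplete n₀) ?_ _ _ h4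
  rintro α M hM hK
  obtain ⟨K, hK1, hK2⟩ := hK
  rw [eq_cyc4 hK1] at hK2
  have h5 : Gn n₀ _ (Pool.Agent.Helper236.cyc ℚ 4) := (gn_isComplete n₀).iso hK2 hM
  have h6 : Gammoid _ (Pool.Agent.Helper236.cyc ℚ 4) := hn₀ n₀ le_rfl h5
  have h7 : NoK4Minor _ (Pool.Agent.Helper236.cyc ℚ 4) :=
    isComplete_noK4Minor.gammoid ⟨Empty, _, noK4_empty⟩ h6
  exact h7.2 _ Matroid.IsMinor.refl (isMK4_of_isCycle isCycle_cyc4)

/-- **The largest complete class containing no copy of `M(K_4)` is the class of the matroids with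
no minor isomorphic to `M(K_4)`.** That class is complete, and it is not the class of
base-orderable matroids. -/
theorem result :
    (∀ C : MClass, IsLargest C ↔ C = NoK4Minor) ∧ IsComplete NoK4Minor ∧
      (∃ K, IsCycleMatroidK4 K) ∧ ¬ IsLargest BO := by
  have huniq : ∀ C : MClass, IsLargest C ↔ C = NoK4Minor := by
    intro C
    constructor
    · intro hC
      funext α M
      exact propext ⟨fun h => isLargest_noK4Minor.2.2 C hC.1 hC.2.1 α M h,
        fun h => hC.2.2 NoK4Minor isComplete_noK4Minor isLargest_noK4Minor.2.1 α M h⟩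
    · rintro rfl
      exact isLargest_noK4Minor
  refine ⟨huniq, isComplete_noK4Minor, ⟨_, isCycle_cyc4⟩, fun h => ?_⟩
  obtain ⟨α, M, hM, hbo⟩ := exists_not_bo
  rw [← (huniq BO).1 h] at hM
  exact hbo hM

end Pool.Agent.Results.MP_c5be19_co.LargestCompleteClass
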